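import Pool.Agent.Lib.MP_284513_co.LMain

/-!
# Hypergraphs with domination number `n / 4` in which every vertex lies in a linear edge

Let `H` be a hypergraph all of whose edges have at least four vertices, and suppose that every vertex
lies in an edge which has at most one vertex in common with every other edge. The domination number
of `H` is one quarter of the number of its vertices if and only if the vertex set is the disjoint
union of units: edges with four vertices one of which has degree one, coronas of the linear
hypergraphs with seven and with eight vertices, and 4 x 4 grids.
-/

open Pool.Agent.MP284513

theorem Pool.Agent.Results.MP_284513_co.LinearEdges.result {V : Type} [Fintype V]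
    [DecidableEq V] (H : Finset (Finset V)) (h4 : ∀ e ∈ H, 4 ≤ e.card)
    (hcov : ∀ v : V, ∃ e, LinearEdge H e ∧ v ∈ e) :
    4 * domNumber H = Fintype.card V ↔ UnionOfUnits H :=
  main_linear H h4 hcov
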