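import Pool.Agent.Lib.MP_284513_co.KMain

/-!
# Which edges can be added to a corona

Let `E` be a minimal cover of the vertices of `H` by edges with four vertices, and suppose that the
other edges of `H` are link edges (`LinkEdge`). The domination number of `H` is one quarter of the
number of its vertices if and only if `E` is a corona over the list and every member of `E` has a
vertex of degree one in `H` or is a row of a 4 x 4 grid.
-/

open Pool.Agent.MP284513

theorem Pool.Agent.Results.MP_284513_co.LinkEdges.result {V : Type} [Fintype V]
    [DecidableEq V] (H E : Finset (Finset V)) (h4 : ∀ e ∈ H, 4 ≤ e.card) (hEH : E ⊆ H)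
    (hE : IsMinCover H E) (hlink : ∀ f ∈ H, f ∉ E → LinkEdge E f) :
    4 * domNumber H = Fintype.card V ↔
      Corona E ∧ ∀ e ∈ E, (∃ v ∈ e, ∀ f ∈ H, v ∈ f → f = e) ∨ GridRow H E e :=
  main_link H E h4 hEH hE hlink
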