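import Pool.Agent.Lib.MP_284513_co.Explicit

/-!
# Hypergraphs with all edges of size at least four and domination number `n / 4`

Let `H` be a hypergraph without isolated vertices all of whose edges have at least four vertices.
Its domination number is equal to one quarter of the number of its vertices if and only if every
minimal cover of the vertex set by four-element subsets of edges arises from a disjoint union of
members of an explicit list of 3-uniform hypergraphs (`Unit3`) by adding one new vertex to every
edge (`Corona`). The explicit parts: equality holds if `H` contains a corona which covers all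
vertices and each of whose edges has a vertex of degree one in `H`; and if `H` is 4-uniform and no
edge can be omitted then equality holds if and only if `H` itself is a corona.
-/

open Pool.Agent.MP284513

theorem Pool.Agent.Results.MP_284513_co.MinimalCovers.result {V : Type} [Fintype V]
    [DecidableEq V] (H : Finset (Finset V)) (h4 : ∀ e ∈ H, 4 ≤ e.card)
    (hcov : ∀ v : V, ∃ e ∈ H, v ∈ e) :
    (4 * domNumber H = Fintype.card V ↔ ∀ C, IsMinCover H C → Corona C) ∧
    (∀ C ⊆ H, Corona C → (∀ v : V, ∃ c ∈ C, v ∈ c) →
      (∀ c ∈ C, ∃ v ∈ c, ∀ f ∈ H, v ∈ f → f = c) → 4 * domNumber H = Fintype.card V) ∧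
    ((∀ e ∈ H, e.card = 4) → (∀ D ⊂ H, ∃ v : V, ∀ d ∈ D, v ∉ d) →
      (4 * domNumber H = Fintype.card V ↔ Corona H)) :=
  main_explicit H h4 hcov
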